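import Mathlib

/-!
# Vanishing of Koszul homology

Alternating maps `R^n × ... × R^n → M` with the contraction by a vector `f` form the Koszul
complex of `f`. If the ideal `(f)` contains an `M`-regular sequence of length `r`, the complex is
exact in degrees `i > n - r`.
-/

set_option autoImplicit false

open Module RingTheory.Sequence

namespace Pool.Agent.MP_8cdb7a_ag

noncomputable section

universe u

variable {R : Type u} [CommRing R] {n : ℕ}

/-- Contraction by `f`. -/
abbrev con {M : Type u} [AddCommGroup M] [Module R M] (f : Fin n → R) {i : ℕ}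
    (ω : (Fin n → R) [⋀^Fin (i + 1)]→ₗ[R] M) : (Fin n → R) [⋀^Fin i]→ₗ[R] M :=
  ω.curryLeft f

/-- Exterior product with the linear form `v`. -/
def wed {M : Type u} [AddCommGroup M] [Module R M] (v : (Fin n → R) →ₗ[R] R) {i : ℕ}
    (ω : (Fin n → R) [⋀^Fin i]→ₗ[R] M) : (Fin n → R) [⋀^Fin (i + 1)]→ₗ[R] M :=
  AlternatingMap.alternatizeUncurryFin (v.smulRight ω)

theorem wed_zero {M : Type u} [AddCommGroup M] [Module R M] (v : (Fin n → R) →ₗ[R] R) {i : ℕ} :
    wed v (0 : (Fin n → R) [⋀^Fin i]→ₗ[R] M) = 0 := by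
  ext u
  simp [wed, AlternatingMap.alternatizeUncurryFin_apply]

theorem con_wed {M : Type u} [AddCommGroup M] [Module R M] (f : Fin n → R)
    (v : (Fin n → R) →ₗ[R] R) {i : ℕ} (ω : (Fin n → R) [⋀^Fin (i + 1)]→ₗ[R] M) :
    con f (wed v ω) = v f • ω - wed v (con f ω) := by
  ext u
  simp only [con, wed, AlternatingMap.curryLeft_apply_apply,
    AlternatingMap.alternatizeUncurryFin_apply, AlternatingMap.sub_apply,
    AlternatingMap.smul_apply, LinearMap.smulRight_apply]
  rw [Fin.sum_univ_succ, sub_eq_add_neg, ← Finset.sum_neg_distrib]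
  congr 1
  · simp [Matrix.vecCons]
  · refine Finset.sum_congr rfl fun j _ => ?_
    have h1 : Fin.removeNth j.succ (Matrix.vecCons f u) = Matrix.vecCons f (Fin.removeNth j u) := by
      funext l
      refine Fin.cases ?_ (fun l => ?_) l
      · simp [Fin.removeNth_apply, Matrix.vecCons]
      · simp [Fin.removeNth_apply, Matrix.vecCons]
    rw [h1]
    simp [pow_succ, Matrix.vecCons]

theorem con_con {M : Type u} [AddCommGroup M] [Module R M] (f : Fin n → R) {i : ℕ}
    (ω : (Fin n → R) [⋀^Fin (i + 2)]→ₗ[R] M) : con f (con f ω) = 0 :=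
  AlternatingMap.curryLeft_same ω f

/-- Alternating maps lift along surjections. -/
theorem alt_lift {M M' : Type u} [AddCommGroup M] [Module R M] [AddCommGroup M'] [Module R M']
    (π : M →ₗ[R] M') (hπ : Function.Surjective π) {i : ℕ}
    (ω : (Fin n → R) [⋀^Fin i]→ₗ[R] M') :
    ∃ ω' : (Fin n → R) [⋀^Fin i]→ₗ[R] M, π.compAlternatingMap ω' = ω := by
  obtain ⟨h, hh⟩ := Module.projective_lifting_property π
    (exteriorPower.alternatingMapLinearEquiv ω) hπ
  refine ⟨exteriorPower.alternatingMapLinearEquiv.symm h, ?_⟩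
  ext u
  have h1 := LinearMap.congr_fun hh (exteriorPower.ιMulti R i u)
  rw [exteriorPower.alternatingMapLinearEquiv_apply_ιMulti] at h1
  rw [← h1]
  rfl

/-- Above the rank there are no alternating maps. -/
theorem alt_top {M : Type u} [AddCommGroup M] [Module R M] {i : ℕ} (hi : n < i)
    (ω : (Fin n → R) [⋀^Fin i]→ₗ[R] M) : ω = 0 := by
  apply Module.Basis.ext_alternating (Pi.basisFun R (Fin n))
  intro v hv
  exfalso
  have := Fintype.card_le_of_injective v hv
  simp at this
  omega

theorem koszul_exact (f : Fin n → R) : ∀ (gs : List R) (M : Type u) [AddCommGroup M] [Module R M]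
    (i : ℕ) (ω : (Fin n → R) [⋀^Fin (i + 1)]→ₗ[R] M),
    (∀ g ∈ gs, g ∈ Ideal.span (Set.range f)) → IsWeaklyRegular M gs → con f ω = 0 →
    n < i + 1 + gs.length → ∃ η : (Fin n → R) [⋀^Fin (i + 2)]→ₗ[R] M, con f η = ω := by
  intro gs
  induction gs with
  | nil =>
    intro M _ _ i ω _ _ _ hn
    refine ⟨0, ?_⟩
    rw [alt_top (by simpa using hn) ω]
    ext u
    rfl
  | cons g gs ih =>
    intro M _ _ i ω hJ hreg hω hn
    rw [isWeaklyRegular_cons_iff] at hreg
    obtain ⟨hg, hgs⟩ := hreg
    obtain ⟨v, hv⟩ : ∃ v : (Fin n → R) →ₗ[R] R, v f = g := by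
      have h1 := hJ g List.mem_cons_self
      rw [Ideal.span, Submodule.mem_span_range_iff_exists_fun] at h1
      obtain ⟨c, hc⟩ := h1
      refine ⟨∑ j, c j • LinearMap.proj j, ?_⟩
      rw [← hc]
      simp
    set Y := wed v ω with hY
    have hY1 : con f Y = g • ω := by
      rw [hY, con_wed, hω, wed_zero, hv, sub_zero]
    let π : M →ₗ[R] QuotSMulTop g M := Submodule.mkQ _
    have hπ : Function.Surjective π := Submodule.mkQ_surjective _
    have hY2 : con f (π.compAlternatingMap Y) = 0 := by
      ext u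
      have h1 := congrArg (fun ω : (Fin n → R) [⋀^Fin (i + 1)]→ₗ[R] M => ω u) hY1
      simp only [con, AlternatingMap.curryLeft_apply_apply, AlternatingMap.smul_apply] at h1
      simp only [con, AlternatingMap.curryLeft_apply_apply, LinearMap.compAlternatingMap_apply, h1,
        AlternatingMap.zero_apply]
      show Submodule.Quotient.mk (g • ω u) = (0 : QuotSMulTop g M)
      rw [Submodule.Quotient.mk_eq_zero]
      exact Submodule.smul_mem_pointwise_smul _ g ⊤ trivial
    obtain ⟨Φ', hΦ'⟩ := ih (QuotSMulTop g M) (i + 1) (π.compAlternatingMap Y)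
      (fun x hx => hJ x (List.mem_cons_of_mem _ hx)) hgs hY2
      (by simp only [List.length_cons] at hn; omega)
    obtain ⟨Φ, hΦ⟩ := alt_lift π hπ Φ'
    have hinj : Function.Injective (LinearMap.lsmul R M g) := hg
    have hmem : ∀ u, (Y - con f Φ) u ∈ LinearMap.range (LinearMap.lsmul R M g) := by
      intro u
      have h1 : π ((Y - con f Φ) u) = 0 := by
        rw [AlternatingMap.sub_apply, map_sub, sub_eq_zero]
        have h2 := congrArg (fun ω : (Fin n → R) [⋀^Fin (i + 1 + 1)]→ₗ[R] _ => ω u) hΦ'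
        rw [← hΦ] at h2
        exact h2.symm
      have h2 : (Submodule.Quotient.mk ((Y - con f Φ) u) : QuotSMulTop g M) = 0 := h1
      rw [Submodule.Quotient.mk_eq_zero, Submodule.mem_smul_pointwise_iff_exists] at h2
      obtain ⟨z, _, hz⟩ := h2
      exact ⟨z, hz⟩
    let e := LinearEquiv.ofInjective (LinearMap.lsmul R M g) hinj
    refine ⟨(e.symm : _ →ₗ[R] M).compAlternatingMap
      (AlternatingMap.codRestrict (Y - con f Φ) _ hmem), ?_⟩
    ext u
    apply hg
    simp only [con, AlternatingMap.curryLeft_apply_apply, LinearMap.compAlternatingMap_apply]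
    have h3 : g • e.symm (AlternatingMap.codRestrict (Y - con f Φ) _ hmem (Matrix.vecCons f u)) =
        (Y - con f Φ) (Matrix.vecCons f u) := by
      have h4 := e.apply_symm_apply
        (AlternatingMap.codRestrict (Y - con f Φ) _ hmem (Matrix.vecCons f u))
      have h5 := congrArg Subtype.val h4
      exact h5
    show g • e.symm (AlternatingMap.codRestrict (Y - con f Φ) _ hmem (Matrix.vecCons f u)) =
      g • ω u
    rw [h3, AlternatingMap.sub_apply]
    have h6 : Y (Matrix.vecCons f u) = g • ω u :=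
      congrArg (fun ω : (Fin n → R) [⋀^Fin (i + 1)]→ₗ[R] M => ω u) hY1
    have h7 : con f Φ (Matrix.vecCons f u) = 0 :=
      congrArg (fun ω : (Fin n → R) [⋀^Fin (i + 1)]→ₗ[R] M => ω u) (con_con f Φ)
    rw [h6, h7, sub_zero]

end

end Pool.Agent.MP_8cdb7a_ag
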