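import Mathlib

/-!
# Permutation of regular sequences of forms
-/

set_option autoImplicit false

namespace Pool.Agent.MP_8cdb7a_ag

open MvPolynomial RingTheory.Sequence
open scoped Pointwise

attribute [local instance] MvPolynomial.gradedAlgebra

variable {σ : Type*} {k : Type*} [Field k]

/-- the ideal generated by forms is homogeneous -/
theorem ofList_homog (rs : List (MvPolynomial σ k)) (h : ∀ r ∈ rs, ∃ d, r.IsHomogeneous d) :
    (Ideal.ofList rs).IsHomogeneous (homogeneousSubmodule σ k) := by
  refine Ideal.homogeneous_span _ _ (fun r hr => ?_)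
  obtain ⟨d, hd⟩ := h r hr
  exact ⟨d, hd⟩

theorem comp_mul_small {a u : MvPolynomial σ k} {d n : ℕ} (ha : a.IsHomogeneous d) (h : n < d) :
    homogeneousComponent n (a * u) = 0 := by
  have := DirectSum.coe_decompose_mul_of_left_mem_of_not_le (homogeneousSubmodule σ k) (b := u)
    (n := n) (i := d) (a := a) ha (by omega)
  rw [← this]
  exact (decomposition.decompose'_apply (a * u) n).symm

theorem comp_mul_right {a u : MvPolynomial σ k} {d n : ℕ} (ha : a.IsHomogeneous d) (h : d ≤ n) :
    homogeneousComponent n (u * a) = homogeneousComponent (n - d) u * a := by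
  have := DirectSum.coe_decompose_mul_of_right_mem_of_le (homogeneousSubmodule σ k) (a := u)
    (n := n) (i := d) (b := a) ha h
  have h1 := decomposition.decompose'_apply (u * a) n
  have h2 := decomposition.decompose'_apply u (n - d)
  rw [← h1, ← h2]
  exact this

/-- graded Krull intersection -/
theorem mem_of_forall_pow {I : Ideal (MvPolynomial σ k)}
    (hI : I.IsHomogeneous (homogeneousSubmodule σ k)) {a : MvPolynomial σ k} {d : ℕ}
    (hd : 0 < d) (ha : a.IsHomogeneous d) {f : MvPolynomial σ k}
    (h : ∀ n : ℕ, ∃ u, f - a ^ n * u ∈ I) : f ∈ I := by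
  rw [mem_iff_homogeneousComponent_mem hI]
  intro m
  obtain ⟨u, hu⟩ := h (m + 1)
  have h1 := homogeneousComponent_mem_of_mem hI hu m
  rw [map_sub, comp_mul_small (ha.pow (m + 1)) (by nlinarith), sub_zero] at h1
  exact h1

/-- a permutation of a regular sequence of forms of positive degree is regular -/
theorem perm_regular {rs rs' : List (MvPolynomial σ k)}
    (h : IsWeaklyRegular (MvPolynomial σ k) rs) (hp : rs.Perm rs')
    (hd : ∀ r ∈ rs, ∃ d, 0 < d ∧ r.IsHomogeneous d) :
    IsWeaklyRegular (MvPolynomial σ k) rs' := by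
  refine h.prototype_perm hp ?_
  intro a b rs'' hsub K hK
  obtain ⟨d, hd0, ha⟩ := hd a (hsub.subset (by simp))
  have hhom : ∀ r ∈ rs'', ∃ d, r.IsHomogeneous d := fun r hr => by
    obtain ⟨d, _, h⟩ := hd r (hsub.subset (by simp [hr]))
    exact ⟨d, h⟩
  have hI := ofList_homog rs'' hhom
  have hpow : ∀ n : ℕ, K = a ^ n • K := by
    intro n
    induction n with
    | zero => simp
    | succ n ih =>
      rw [pow_succ, mul_smul, ← hK]
      exact ih
  rw [eq_bot_iff]
  intro x hx
  obtain ⟨f, rfl⟩ := Submodule.Quotient.mk_surjective _ x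
  have hf : f ∈ Ideal.ofList rs'' := by
    refine mem_of_forall_pow hI hd0 ha (fun n => ?_)
    have h1 : (Submodule.Quotient.mk f : MvPolynomial σ k ⧸
        (Ideal.ofList rs'' • ⊤ : Submodule (MvPolynomial σ k) (MvPolynomial σ k))) ∈ a ^ n • K := by
      rw [← hpow n]
      exact hx
    obtain ⟨y, _, hy⟩ := h1
    obtain ⟨u, rfl⟩ := Submodule.Quotient.mk_surjective _ y
    refine ⟨u, ?_⟩
    have h2 : (Submodule.Quotient.mk (a ^ n * u) : MvPolynomial σ k ⧸
        (Ideal.ofList rs'' • ⊤ : Submodule (MvPolynomial σ k) (MvPolynomial σ k))) =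
        Submodule.Quotient.mk f := hy
    have h3 := (Submodule.Quotient.eq _).1 h2.symm
    simpa using h3
  rw [Submodule.mem_bot, Submodule.Quotient.mk_eq_zero]
  simpa using hf

end Pool.Agent.MP_8cdb7a_ag
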