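import Pool.Agent.Lib.MP_8cdb7a_ag.Reg1

/-!
# A linear form in general position
-/

set_option autoImplicit false

namespace Pool.Agent.MP_8cdb7a_ag

open MvPolynomial RingTheory.Sequence
open scoped Pointwise

section
variable {k : Type*} [Field k]

/-- a form evaluated at a multiple of a vector -/
theorem eval_smul_form {σ : Type*} {g : MvPolynomial σ k} {d : ℕ} (hg : g.IsHomogeneous d) (c : k)
    (v : σ → k) : eval (fun i => c * v i) g = c ^ d * eval v g := by
  rw [eval_eq, eval_eq, Finset.mul_sum]
  refine Finset.sum_congr rfl (fun m hm => ?_)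
  have hd : m.degree = d := by
    have := hg (mem_support_iff.1 hm)
    rw [← this, Finsupp.degree_eq_weight_one]
    rfl
  rw [Finset.prod_congr rfl (fun i _ => mul_pow c (v i) (m i)), Finset.prod_mul_distrib,
    Finset.prod_pow_eq_pow_sum]
  have : ∑ i ∈ m.support, m i = d := hd
  rw [this]
  ring

theorem eval_zero_form {σ : Type*} {g : MvPolynomial σ k} {d : ℕ} (hg : g.IsHomogeneous d)
    (hd : 0 < d) : eval 0 g = 0 := by
  have := eval_smul_form hg 0 0
  rw [zero_pow hd.ne', zero_mul] at this
  simpa using this

end

variable {k : Type*} [Field k] [IsAlgClosed k]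

/-- Nullstellensatz: if forms have only the trivial common zero then a power of every form is
in the ideal -/
theorem pow_mem_of_trivial {N : ℕ} {ι : Type*} (g : ι → MvPolynomial (Fin N) k)
    (h0 : ∀ v : Fin N → k, (∀ j, eval v (g j) = 0) → v = 0) (p : MvPolynomial (Fin N) k)
    (hp : eval 0 p = 0) : ∃ s : ℕ, p ^ s ∈ Ideal.span (Set.range g) := by
  have h1 : p ∈ (Ideal.span (Set.range g)).radical := by
    rw [← vanishingIdeal_zeroLocus_eq_radical (K := k), mem_vanishingIdeal_iff]
    intro v hv
    rw [mem_zeroLocus_iff] at hv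
    have : v = 0 := by
      refine h0 v (fun j => ?_)
      have := hv (g j) (Ideal.subset_span ⟨j, rfl⟩)
      exact this
    rw [this]
    exact hp
  exact h1

/-- all monomials of large degree are in the ideal -/
theorem monomial_mem_of_trivial {N : ℕ} {ι : Type*} (g : ι → MvPolynomial (Fin N) k)
    (h0 : ∀ v : Fin N → k, (∀ j, eval v (g j) = 0) → v = 0) :
    ∃ T : ℕ, ∀ m : Fin N →₀ ℕ, T ≤ m.degree → monomial m (1 : k) ∈ Ideal.span (Set.range g) := by
  have h1 : ∀ i : Fin N, ∃ s : ℕ, (X i : MvPolynomial (Fin N) k) ^ s ∈ Ideal.span (Set.range g) :=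
    fun i => pow_mem_of_trivial g h0 (X i) (by simp)
  choose s hs using h1
  refine ⟨∑ i, s i + 1, fun m hm => ?_⟩
  have h2 : ∃ i, s i ≤ m i := by
    by_contra hcon
    push Not at hcon
    have h3 : m.degree ≤ ∑ i, s i := by
      rw [Finsupp.degree_eq_sum]
      exact Finset.sum_le_sum (fun i _ => (hcon i).le)
    omega
  obtain ⟨i, hi⟩ := h2
  have h3 : monomial m (1 : k) = monomial (m - Finsupp.single i (s i)) 1 * X i ^ s i := by
    rw [X_pow_eq_monomial, monomial_mul, mul_one, tsub_add_cancel_of_le]
    simpa using hi
  rw [h3]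
  exact Ideal.mul_mem_left _ _ (hs i)

/-- the affine scheme `g_0 = ... = g_(N-1) = 0`, `g_N = 1` is finite -/
theorem finite_points {N : ℕ} (g : Fin (N + 1) → MvPolynomial (Fin (N + 1)) k)
    (e : Fin (N + 1) → ℕ) (he : ∀ j, 0 < e j) (hg : ∀ j, (g j).IsHomogeneous (e j))
    (h0 : ∀ v : Fin (N + 1) → k, (∀ j, eval v (g j) = 0) → v = 0) :
    {v : Fin (N + 1) → k | (∀ j : Fin N, eval v (g j.castSucc) = 0) ∧
      eval v (g (Fin.last N)) = 1}.Finite := by
  classical
  obtain ⟨T, hT⟩ := monomial_mem_of_trivial g h0
  set I : Ideal (MvPolynomial (Fin (N + 1)) k) :=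
    Ideal.span (Set.range fun j : Fin N => g j.castSucc) ⊔ Ideal.span {g (Fin.last N) - 1} with hI
  set S : Submodule k (MvPolynomial (Fin (N + 1)) k ⧸ I) :=
    Submodule.span k ((fun m : Fin (N + 1) →₀ ℕ => Ideal.Quotient.mk I (monomial m 1)) ''
      {m | m.degree < T}) with hS
  have hfinset : {m : Fin (N + 1) →₀ ℕ | m.degree < T}.Finite := by
    have := Finsupp.finite_of_degree_le (σ := Fin (N + 1)) T
    exact this.subset (fun m hm => (show m.degree ≤ T from le_of_lt hm))
  have hmono : ∀ n : ℕ, ∀ m : Fin (N + 1) →₀ ℕ, m.degree = n →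
      Ideal.Quotient.mk I (monomial m (1 : k)) ∈ S := by
    intro n
    induction n using Nat.strong_induction_on with
    | _ n ih =>
      intro m hm
      by_cases hlt : n < T
      · exact Submodule.subset_span ⟨m, by rw [Set.mem_ofPred_eq, hm]; exact hlt, rfl⟩
      · have h1 := hT m (by omega)
        obtain ⟨a, ha⟩ := (Ideal.mem_span_range_iff_exists_fun).1 h1
        have hmh : (monomial m (1 : k)).IsHomogeneous n := isHomogeneous_monomial _ hm
        have h2 : monomial m (1 : k) = ∑ j, homogeneousComponent n (a j * g j) := by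
          rw [← map_sum, ha]
          exact (homogeneousComponent_eq_self hmh).symm
        -- the form
        have hcase : ∃ b : MvPolynomial (Fin (N + 1)) k,
            Ideal.Quotient.mk I (monomial m (1 : k)) = Ideal.Quotient.mk I b ∧
              (∀ m' ∈ b.support, m'.degree < n) := by
          have hzero : ∀ j : Fin N, Ideal.Quotient.mk I
              (homogeneousComponent n (a j.castSucc * g j.castSucc)) = 0 := by
            intro j
            by_cases hle : e j.castSucc ≤ n
            · rw [comp_mul_right (hg _) hle, map_mul]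
              have : Ideal.Quotient.mk I (g j.castSucc) = 0 := by
                rw [Ideal.Quotient.eq_zero_iff_mem]
                exact Ideal.mem_sup_left (Ideal.subset_span ⟨j, rfl⟩)
              rw [this, mul_zero]
            · rw [mul_comm, comp_mul_small (hg _) (by omega), map_zero]
          have hone : Ideal.Quotient.mk I (g (Fin.last N)) = 1 := by
            have : Ideal.Quotient.mk I (g (Fin.last N) - 1) = 0 := by
              rw [Ideal.Quotient.eq_zero_iff_mem]
              exact Ideal.mem_sup_right (Ideal.subset_span rfl)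
            rw [map_sub, map_one, sub_eq_zero] at this
            exact this
          by_cases hle : e (Fin.last N) ≤ n
          · refine ⟨homogeneousComponent (n - e (Fin.last N)) (a (Fin.last N)), ?_, ?_⟩
            · rw [h2, map_sum, Fin.sum_univ_castSucc, Finset.sum_eq_zero (fun j _ => hzero j),
                zero_add, comp_mul_right (hg _) hle, map_mul, hone, mul_one]
            · intro m' hm'
              have h3 := (homogeneousComponent_isHomogeneous (n - e (Fin.last N))
                (a (Fin.last N))) (mem_support_iff.1 hm')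
              have h4 : m'.degree = n - e (Fin.last N) := by
                rw [← h3, Finsupp.degree_eq_weight_one]
                rfl
              have := he (Fin.last N)
              omega
          · refine ⟨0, ?_, by simp⟩
            rw [h2, map_sum, Fin.sum_univ_castSucc, Finset.sum_eq_zero (fun j _ => hzero j),
              zero_add, mul_comm, comp_mul_small (hg _) (by omega)]
        obtain ⟨b, hb, hbd⟩ := hcase
        rw [hb]
        have h5 : Ideal.Quotient.mk I b =
            ∑ m' ∈ b.support, (coeff m' b) • Ideal.Quotient.mk I (monomial m' (1 : k)) := by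
          conv_lhs => rw [as_sum b]
          rw [map_sum]
          refine Finset.sum_congr rfl (fun m' _ => ?_)
          have : monomial m' (coeff m' b) = (coeff m' b) • monomial m' (1 : k) := by
            rw [smul_monomial, smul_eq_mul, mul_one]
          rw [this]
          rfl
        rw [h5]
        exact Submodule.sum_mem _ (fun m' hm' => Submodule.smul_mem _ _ (ih _ (hbd m' hm') m' rfl))
  have htop : S = ⊤ := by
    rw [eq_top_iff]
    intro x _
    obtain ⟨b, rfl⟩ := Ideal.Quotient.mk_surjective x
    have h5 : Ideal.Quotient.mk I b =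
        ∑ m' ∈ b.support, (coeff m' b) • Ideal.Quotient.mk I (monomial m' (1 : k)) := by
      conv_lhs => rw [as_sum b]
      rw [map_sum]
      refine Finset.sum_congr rfl (fun m' _ => ?_)
      have : monomial m' (coeff m' b) = (coeff m' b) • monomial m' (1 : k) := by
        rw [smul_monomial, smul_eq_mul, mul_one]
      rw [this]
      rfl
    rw [h5]
    exact Submodule.sum_mem _ (fun m' _ => Submodule.smul_mem _ _ (hmono _ m' rfl))
  have hfin : Module.Finite k (MvPolynomial (Fin (N + 1)) k ⧸ I) :=
    ⟨⟨(hfinset.image _).toFinset, by rw [Set.Finite.coe_toFinset]; exact htop⟩⟩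
  have hfin2 : Finite ((MvPolynomial (Fin (N + 1)) k ⧸ I) →ₐ[k] k) := inferInstance
  -- points are algebra homomorphisms
  have hker : ∀ v ∈ {v : Fin (N + 1) → k | (∀ j : Fin N, eval v (g j.castSucc) = 0) ∧
      eval v (g (Fin.last N)) = 1}, ∀ a ∈ I, aeval v a = 0 := by
    intro v hv a ha
    have h1 : I ≤ RingHom.ker (aeval v : MvPolynomial (Fin (N + 1)) k →ₐ[k] k) := by
      rw [hI, sup_le_iff]
      constructor
      · rw [Ideal.span_le]
        rintro _ ⟨j, rfl⟩
        exact hv.1 j
      · rw [Ideal.span_le]
        rintro _ rfl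
        show aeval v (g (Fin.last N) - 1) = 0
        rw [map_sub, map_one]
        have : aeval v (g (Fin.last N)) = (1 : k) := hv.2
        rw [this, sub_self]
    exact h1 ha
  let Φ : {v : Fin (N + 1) → k | (∀ j : Fin N, eval v (g j.castSucc) = 0) ∧
      eval v (g (Fin.last N)) = 1} → ((MvPolynomial (Fin (N + 1)) k ⧸ I) →ₐ[k] k) :=
    fun v => Ideal.Quotient.liftₐ I (aeval v.1) (hker v.1 v.2)
  have hΦ : Function.Injective Φ := by
    intro v w hvw
    apply Subtype.ext
    funext i
    have h1 : Φ v (Ideal.Quotient.mk I (X i)) = Φ w (Ideal.Quotient.mk I (X i)) := by rw [hvw]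
    have h2 : ∀ v, Φ v (Ideal.Quotient.mk I (X i)) = v.1 i := by
      intro v
      show aeval v.1 (X i : MvPolynomial (Fin (N + 1)) k) = v.1 i
      rw [aeval_X]
    rwa [h2, h2] at h1
  exact Set.finite_coe_iff.1 (Finite.of_injective Φ hΦ)

end Pool.Agent.MP_8cdb7a_ag
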