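import Pool.Agent.Lib.MP_8cdb7a_ag.Reg2

/-!
# A linear form in general position
-/

set_option autoImplicit false

namespace Pool.Agent.MP_8cdb7a_ag

open MvPolynomial

section
variable {k : Type*} [Field k]

/-- the condition on `c` that `v` is in the hyperplane `x_N = ∑ c_i x_i` -/
noncomputable def hypP {N : ℕ} (v : Fin (N + 1) → k) : MvPolynomial (Fin N) k :=
  C (v (Fin.last N)) - ∑ i, X i * C (v i.castSucc)

theorem hypP_eval {N : ℕ} (v : Fin (N + 1) → k) (c : Fin N → k) :
    eval c (hypP v) = v (Fin.last N) - ∑ i, c i * v i.castSucc := by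
  simp [hypP]

theorem hypP_ne {N : ℕ} {v : Fin (N + 1) → k} (hv : v ≠ 0) : hypP v ≠ 0 := by
  classical
  intro hP
  apply hv
  have h1 := hypP_eval v 0
  rw [hP] at h1
  simp only [map_zero, Pi.zero_apply, zero_mul, Finset.sum_const_zero, sub_zero] at h1
  have h2 : ∀ i : Fin N, v i.castSucc = 0 := by
    intro i
    have h3 := hypP_eval v (Pi.single i 1)
    rw [hP, map_zero, ← h1, zero_sub, eq_comm, neg_eq_zero] at h3
    rw [Finset.sum_eq_single i] at h3
    · simpa using h3
    · intro j _ hj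
      rw [Pi.single_eq_of_ne hj, zero_mul]
    · intro h
      exact absurd (Finset.mem_univ i) h
  funext j
  refine Fin.lastCases ?_ (fun i => ?_) j
  · exact h1.symm
  · exact h2 i

/-- finitely many nonzero vectors are avoided by some hyperplane `x_N = ∑ c_i x_i` -/
theorem exists_avoid [Infinite k] {N : ℕ} {Z : Set (Fin (N + 1) → k)} (hZ : Z.Finite)
    (h0 : ∀ v ∈ Z, v ≠ 0) :
    ∃ c : Fin N → k, ∀ v ∈ Z, v (Fin.last N) ≠ ∑ i, c i * v i.castSucc := by
  classical
  have hprod : ∏ v ∈ hZ.toFinset, hypP v ≠ 0 := by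
    rw [Finset.prod_ne_zero_iff]
    intro v hv
    exact hypP_ne (h0 v (hZ.mem_toFinset.1 hv))
  have hex : ∃ c : Fin N → k, eval c (∏ v ∈ hZ.toFinset, hypP v) ≠ 0 := by
    by_contra hcon
    push Not at hcon
    exact hprod (MvPolynomial.funext (fun c => by rw [hcon c, map_zero]))
  obtain ⟨c, hc⟩ := hex
  rw [map_prod, Finset.prod_ne_zero_iff] at hc
  refine ⟨c, fun v hv h => hc v (hZ.mem_toFinset.2 hv) ?_⟩
  rw [hypP_eval, h, sub_self]

end

variable {k : Type*} [Field k] [IsAlgClosed k]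

/-- a hyperplane `x_N = ∑ c_i x_i` which meets the cone over the points only in the vertex -/
theorem exists_hyperplane {N : ℕ} (g : Fin (N + 1) → MvPolynomial (Fin (N + 1)) k)
    (e : Fin (N + 1) → ℕ) (he : ∀ j, 0 < e j) (hg : ∀ j, (g j).IsHomogeneous (e j))
    (h0 : ∀ v : Fin (N + 1) → k, (∀ j, eval v (g j) = 0) → v = 0) :
    ∃ c : Fin N → k, ∀ v : Fin (N + 1) → k, (∀ j : Fin N, eval v (g j.castSucc) = 0) →
      v (Fin.last N) = ∑ i, c i * v i.castSucc → v = 0 := by
  have hinf : Infinite k := IsAlgClosed.instInfinite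
  obtain ⟨c, hc⟩ := exists_avoid (finite_points g e he hg h0) (by
    intro v hv h
    have h1 := hv.2
    rw [h, eval_zero_form (hg _) (he _)] at h1
    exact zero_ne_one h1)
  refine ⟨c, fun v hv hvc => ?_⟩
  by_contra hne
  have h1 : eval v (g (Fin.last N)) ≠ 0 := by
    intro h
    apply hne
    refine h0 v (fun j => ?_)
    refine Fin.lastCases ?_ (fun i => ?_) j
    · exact h
    · exact hv i
  obtain ⟨z, hz⟩ := IsAlgClosed.exists_pow_nat_eq (eval v (g (Fin.last N)))⁻¹ (he (Fin.last N))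
  refine hc (fun i => z * v i) ⟨fun j => ?_, ?_⟩ ?_
  · rw [eval_smul_form (hg _), hv j, mul_zero]
  · rw [eval_smul_form (hg _), hz, inv_mul_cancel₀ h1]
  · show z * v (Fin.last N) = ∑ i, c i * (z * v i.castSucc)
    rw [hvc, Finset.mul_sum]
    exact Finset.sum_congr rfl (fun i _ => by ring)

end Pool.Agent.MP_8cdb7a_ag
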