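import Pool.Agent.Lib.MP_8cdb7a_ag.Reg3

/-!
# Forms with only the trivial common zero are a regular sequence
-/

set_option autoImplicit false

namespace Pool.Agent.MP_8cdb7a_ag

open MvPolynomial RingTheory.Sequence
open scoped Pointwise

section
variable {k : Type*} [Field k] {N : ℕ}

/-- restriction to the hyperplane `x_N = ∑ c_i x_i` -/
noncomputable def rst (c : Fin N → k) : MvPolynomial (Fin (N + 1)) k →ₐ[k] MvPolynomial (Fin N) k :=
  aeval (Fin.lastCases (motive := fun _ => MvPolynomial (Fin N) k) (∑ i, C (c i) * X i)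
    (fun i => X i))

/-- the equation of the hyperplane -/
noncomputable def ell (c : Fin N → k) : MvPolynomial (Fin (N + 1)) k :=
  X (Fin.last N) - ∑ i, C (c i) * X i.castSucc

theorem rst_castSucc (c : Fin N → k) (i : Fin N) : rst c (X i.castSucc) = X i := by
  unfold rst
  rw [aeval_X, Fin.lastCases_castSucc]

theorem rst_last (c : Fin N → k) : rst c (X (Fin.last N)) = ∑ i, C (c i) * X i := by
  unfold rst
  rw [aeval_X, Fin.lastCases_last]

theorem rst_surj (c : Fin N → k) : Function.Surjective (rst c) := by
  intro f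
  refine ⟨aeval (fun i : Fin N => (X i.castSucc : MvPolynomial (Fin (N + 1)) k)) f, ?_⟩
  have h : ((rst c).comp (aeval fun i : Fin N => (X i.castSucc : MvPolynomial (Fin (N + 1)) k))) =
      AlgHom.id k _ := by
    apply MvPolynomial.algHom_ext
    intro i
    rw [AlgHom.comp_apply, aeval_X, rst_castSucc]
    rfl
  have := congrArg (fun φ : MvPolynomial (Fin N) k →ₐ[k] MvPolynomial (Fin N) k => φ f) h
  exact this

theorem rst_ell (c : Fin N → k) : rst c (ell c) = 0 := by
  unfold ell
  rw [map_sub, rst_last, map_sum, sub_eq_zero]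
  refine Finset.sum_congr rfl (fun i _ => ?_)
  rw [map_mul, rst_castSucc]
  congr 1
  unfold rst
  rw [algHom_C]
  rfl

theorem rst_ker (c : Fin N → k) (f : MvPolynomial (Fin (N + 1)) k) (hf : rst c f = 0) :
    f ∈ Ideal.span {ell c} := by
  set J : Ideal (MvPolynomial (Fin (N + 1)) k) := Ideal.span {ell c} with hJ
  let θ : MvPolynomial (Fin N) k →ₐ[k] MvPolynomial (Fin (N + 1)) k ⧸ J :=
    aeval (fun i : Fin N => Ideal.Quotient.mk J (X i.castSucc))
  have h : θ.comp (rst c) = Ideal.Quotient.mkₐ k J := by
    apply MvPolynomial.algHom_ext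
    intro j
    refine Fin.lastCases ?_ (fun i => ?_) j
    · rw [AlgHom.comp_apply, rst_last, map_sum]
      have h1 : Ideal.Quotient.mk J (ell c) = 0 := by
        rw [Ideal.Quotient.eq_zero_iff_mem]
        exact Ideal.subset_span rfl
      unfold ell at h1
      rw [map_sub, sub_eq_zero] at h1
      rw [Ideal.Quotient.mkₐ_eq_mk, h1, map_sum]
      refine Finset.sum_congr rfl (fun i _ => ?_)
      rw [map_mul, map_mul]
      congr 1
      · rw [← algebraMap_eq, ← algebraMap_eq, AlgHom.commutes]
        rfl
      · exact aeval_X _ i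
    · rw [AlgHom.comp_apply, rst_castSucc]
      exact aeval_X _ i
  have h2 := congrArg (fun φ : MvPolynomial (Fin (N + 1)) k →ₐ[k] _ => φ f) h
  have h3 : θ (rst c f) = Ideal.Quotient.mk J f := h2
  rw [hf, map_zero] at h3
  exact Ideal.Quotient.eq_zero_iff_mem.1 h3.symm

theorem rst_eval (c : Fin N → k) (u : Fin N → k) (f : MvPolynomial (Fin (N + 1)) k) :
    eval u (rst c f) = eval (Fin.snoc (α := fun _ => k) u (∑ i, c i * u i)) f := by
  have h : ((aeval u : MvPolynomial (Fin N) k →ₐ[k] k).comp (rst c)) =
      aeval (Fin.snoc (α := fun _ => k) u (∑ i, c i * u i)) := by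
    apply MvPolynomial.algHom_ext
    intro j
    refine Fin.lastCases ?_ (fun i => ?_) j
    · rw [AlgHom.comp_apply, rst_last, map_sum, aeval_X, Fin.snoc_last]
      refine Finset.sum_congr rfl (fun i _ => ?_)
      rw [map_mul, aeval_X, ← algebraMap_eq, AlgHom.commutes]
      rfl
    · rw [AlgHom.comp_apply, rst_castSucc, aeval_X, aeval_X, Fin.snoc_castSucc]
  have := congrArg (fun φ : MvPolynomial (Fin (N + 1)) k →ₐ[k] k => φ f) h
  exact this

theorem rst_homog (c : Fin N → k) {f : MvPolynomial (Fin (N + 1)) k} {d : ℕ}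
    (hf : f.IsHomogeneous d) : (rst c f).IsHomogeneous d := by
  have := hf.aeval (Fin.lastCases (motive := fun _ => MvPolynomial (Fin N) k)
    (∑ i, C (c i) * X i) (fun i => X i)) (n := 1) (fun j => by
      refine Fin.lastCases ?_ (fun i => ?_) j
      · rw [Fin.lastCases_last]
        exact IsHomogeneous.sum _ _ _ (fun i _ => isHomogeneous_C_mul_X _ _)
      · rw [Fin.lastCases_castSucc]
        exact isHomogeneous_X _ _)
  rw [one_mul] at this
  exact this

theorem ell_ne (c : Fin N → k) : ell c ≠ 0 := by
  classical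
  intro h
  have h1 : eval (Pi.single (Fin.last N) (1 : k)) (ell c) = 1 := by
    unfold ell
    rw [map_sub, eval_X, Pi.single_eq_same, map_sum, Finset.sum_eq_zero, sub_zero]
    intro i _
    rw [map_mul, eval_X, Pi.single_eq_of_ne (Fin.castSucc_lt_last i).ne, mul_zero]
  rw [h, map_zero] at h1
  exact zero_ne_one h1

theorem ell_homog (c : Fin N → k) : (ell c).IsHomogeneous 1 := by
  unfold ell
  exact (isHomogeneous_X _ _).sub (IsHomogeneous.sum _ _ _ (fun i _ => isHomogeneous_C_mul_X _ _))

end

variable {k : Type*} [Field k] [IsAlgClosed k]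

/-- `N` forms of positive degree in `N` variables with only the trivial common zero are a regular
sequence -/
theorem regular_of_trivial : ∀ (N : ℕ) (g : Fin N → MvPolynomial (Fin N) k) (e : Fin N → ℕ),
    (∀ j, 0 < e j) → (∀ j, (g j).IsHomogeneous (e j)) →
    (∀ v : Fin N → k, (∀ j, eval v (g j) = 0) → v = 0) →
    IsWeaklyRegular (MvPolynomial (Fin N) k) (List.ofFn g) := by
  intro N
  induction N with
  | zero =>
    intro g e _ _ _
    rw [List.ofFn_zero]
    exact .nil _ _
  | succ N ih =>
    intro g e he hg h0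
    obtain ⟨c, hc⟩ := exists_hyperplane g e he hg h0
    set L : List (MvPolynomial (Fin (N + 1)) k) := List.ofFn (fun j : Fin N => g j.castSucc) with hL
    have h1 := ih (fun j => rst c (g j.castSucc)) (fun j => e j.castSucc) (fun j => he _)
      (fun j => rst_homog c (hg _)) (fun u hu => by
        have h2 := hc (Fin.snoc (α := fun _ => k) u (∑ i, c i * u i)) (fun j => by
          rw [← rst_eval]
          exact hu j) (by
          rw [Fin.snoc_last]
          exact Finset.sum_congr rfl (fun i _ => by rw [Fin.snoc_castSucc]))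
        funext i
        have h3 := congrFun h2 i.castSucc
        rw [Fin.snoc_castSucc] at h3
        exact h3)
    have hmap : List.ofFn (fun j : Fin N => rst c (g j.castSucc)) = L.map (rst c) := by
      rw [hL, List.map_ofFn]
      rfl
    rw [hmap] at h1
    let _ : Algebra (MvPolynomial (Fin (N + 1)) k) (MvPolynomial (Fin N) k) :=
      (rst c).toRingHom.toAlgebra
    have h2 : IsWeaklyRegular (R := MvPolynomial (Fin (N + 1)) k) (MvPolynomial (Fin N) k) L :=
      (isWeaklyRegular_map_algebraMap_iff (R := MvPolynomial (Fin (N + 1)) k)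
        (S := MvPolynomial (Fin N) k) (M := MvPolynomial (Fin N) k) L).1 h1
    let φ : MvPolynomial (Fin (N + 1)) k →ₗ[MvPolynomial (Fin (N + 1)) k] MvPolynomial (Fin N) k :=
      Algebra.linearMap _ _
    have hφ : Function.Surjective φ := rst_surj c
    have hker : (ell c) • (⊤ : Submodule (MvPolynomial (Fin (N + 1)) k)
        (MvPolynomial (Fin (N + 1)) k)) = LinearMap.ker φ := by
      ext x
      rw [Submodule.mem_smul_pointwise_iff_exists, LinearMap.mem_ker]
      constructor
      · rintro ⟨y, _, rfl⟩
        show rst c (ell c * y) = 0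
        rw [map_mul, rst_ell, zero_mul]
      · intro hx
        have h3 := rst_ker c x hx
        rw [Ideal.mem_span_singleton'] at h3
        obtain ⟨a, ha⟩ := h3
        exact ⟨a, trivial, by rw [smul_eq_mul, mul_comm]; exact ha⟩
    let E : QuotSMulTop (ell c) (MvPolynomial (Fin (N + 1)) k) ≃ₗ[MvPolynomial (Fin (N + 1)) k]
        MvPolynomial (Fin N) k :=
      (Submodule.quotEquivOfEq _ _ hker).trans (φ.quotKerEquivOfSurjective hφ)
    have h3 : IsWeaklyRegular (MvPolynomial (Fin (N + 1)) k) (ell c :: L) := by
      rw [isWeaklyRegular_cons_iff]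
      refine ⟨?_, (E.isWeaklyRegular_congr L).2 h2⟩
      intro x y hxy
      exact mul_left_cancel₀ (ell_ne c) hxy
    have hdeg : ∀ r ∈ ell c :: L, ∃ d, 0 < d ∧ r.IsHomogeneous d := by
      intro r hr
      rcases List.mem_cons.1 hr with rfl | hr
      · exact ⟨1, one_pos, ell_homog c⟩
      · rw [hL, List.mem_ofFn] at hr
        obtain ⟨j, rfl⟩ := hr
        exact ⟨_, he _, hg _⟩
    have h4 := perm_regular h3 (List.perm_append_singleton (ell c) L).symm hdeg
    rw [isWeaklyRegular_append_iff, isWeaklyRegular_singleton_iff] at h4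
    have hofn : List.ofFn g = L ++ [g (Fin.last N)] := by
      rw [List.ofFn_succ', List.concat_eq_append]
    rw [hofn, isWeaklyRegular_append_iff, isWeaklyRegular_singleton_iff]
    refine ⟨h4.1, ?_⟩
    obtain ⟨s, hs⟩ := pow_mem_of_trivial g h0 (ell c) (eval_zero_form (ell_homog c) one_pos)
    have hspan : Ideal.span (Set.range g) = Ideal.ofList L ⊔ Ideal.span {g (Fin.last N)} := by
      have : Ideal.span (Set.range g) = Ideal.ofList (List.ofFn g) := by
        unfold Ideal.ofList
        congr 1
        ext x
        show x ∈ Set.range g ↔ x ∈ List.ofFn g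
        rw [List.mem_ofFn']
      rw [this, hofn, Ideal.ofList_append, Ideal.ofList_singleton]
    rw [hspan] at hs
    obtain ⟨a, ha, b, hb, hab⟩ := Submodule.mem_sup.1 hs
    obtain ⟨u, rfl⟩ := Ideal.mem_span_singleton'.1 hb
    have hreg := h4.2
    rw [isSMulRegular_iff_right_eq_zero_of_smul] at hreg ⊢
    intro x hx
    have hpow : ∀ n : ℕ, (ell c) ^ n • x = 0 → x = 0 := by
      intro n
      induction n with
      | zero => intro h; simpa using h
      | succ n ihn =>
        intro h
        apply ihn
        apply hreg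
        rw [smul_smul, ← pow_succ']
        exact h
    apply hpow s
    rw [← hab, add_smul, mul_smul, hx, smul_zero, add_zero]
    obtain ⟨y, rfl⟩ := Submodule.Quotient.mk_surjective _ x
    rw [← Submodule.Quotient.mk_smul, Submodule.Quotient.mk_eq_zero]
    rw [smul_eq_mul]
    exact Submodule.smul_mem_smul ha trivial

end Pool.Agent.MP_8cdb7a_ag
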