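import Pool.Agent.Lib.MP_8cdb7a_ag.Reg4
import Pool.Agent.Lib.MP_8cdb7a_ag.Kos

/-!
# Syzygies of forms of high degree
-/

set_option autoImplicit false

open MvPolynomial RingTheory.Sequence

namespace Pool.Agent.MP_8cdb7a_ag

attribute [local instance] MvPolynomial.gradedAlgebra

section

variable {k : Type*} [Field k]

theorem deg_zero {σ ι : Type*} [Fintype ι] {P : MvPolynomial σ k} {a : ℕ}
    (hP : P.IsHomogeneous a) (c f : ι → MvPolynomial σ k) (e : ι → ℕ)
    (hf : ∀ l, (f l).IsHomogeneous (e l)) (h : P = ∑ l, f l * c l)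
    (hl : ∀ l, c l = 0 ∨ a < e l) : P = 0 := by
  have h1 : homogeneousComponent a P = P := by
    rw [homogeneousComponent_of_mem (m := a) hP, if_pos rfl]
  rw [← h1, h, map_sum]
  refine Finset.sum_eq_zero fun l _ => ?_
  rcases hl l with h2 | h2
  · rw [h2, mul_zero, map_zero]
  · exact comp_mul_small (hf l) h2

end

variable {k : Type*} [Field k] [IsAlgClosed k]

theorem exists_regular {n : ℕ} (f0 : MvPolynomial (Fin (n + 1)) k) (e0 : ℕ) (he0 : 0 < e0)
    (hf0 : f0.IsHomogeneous e0) (hne : f0 ≠ 0)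
    (f : Fin (n + 1) → MvPolynomial (Fin (n + 1)) k) (e : Fin (n + 1) → ℕ)
    (hf : ∀ j, (f j).IsHomogeneous (e j))
    (h0 : ∀ v : Fin (n + 1) → k, eval v f0 = 0 → (∀ j, eval v (f j) = 0) → v = 0) :
    ∃ gs : List (MvPolynomial (Fin (n + 1)) k), gs.length = n ∧
      (∀ g ∈ gs, g ∈ Ideal.span (Set.range f)) ∧
      IsWeaklyRegular (MvPolynomial (Fin (n + 1)) k) gs := by
  classical
  obtain ⟨v0, hv0⟩ : ∃ v0 : Fin (n + 1) → k, eval v0 f0 ≠ 0 := by
    by_contra hcon
    push Not at hcon
    exact hne (MvPolynomial.funext fun v => by rw [hcon v, map_zero])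
  obtain ⟨t, ht⟩ : ∃ t, v0 t ≠ 0 := by
    by_contra hcon
    push Not at hcon
    have : v0 = 0 := funext hcon
    rw [this, eval_zero_form hf0 he0] at hv0
    exact hv0 rfl
  let ℓ : Fin n → MvPolynomial (Fin (n + 1)) k := fun j =>
    X (t.succAbove j) - C (v0 (t.succAbove j) / v0 t) * X t
  have hℓ : ∀ j, (ℓ j).IsHomogeneous 1 := fun j =>
    (isHomogeneous_X k _).sub (by
      have := (isHomogeneous_C (Fin (n + 1)) (v0 (t.succAbove j) / v0 t)).mul
        (isHomogeneous_X k t)
      rwa [zero_add] at this)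
  let g' : Option (Fin (n + 1)) → MvPolynomial (Fin (n + 1)) k := fun o => o.elim f0 f
  have hg' : ∀ v : Fin (n + 1) → k, (∀ o, eval v (g' o) = 0) → v = 0 := fun v hv =>
    h0 v (hv none) (fun j => hv (some j))
  have hpow : ∀ j, ∃ s : ℕ, 0 < s ∧ ℓ j ^ s ∈ Ideal.span (Set.range g') := by
    intro j
    obtain ⟨s, hs⟩ := pow_mem_of_trivial g' hg' (ℓ j) (eval_zero_form (hℓ j) one_pos)
    refine ⟨s + 1, Nat.succ_pos s, ?_⟩
    rw [pow_succ]
    exact Ideal.mul_mem_right _ _ hs
  choose s hs0 hs using hpow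
  have hJ : (Ideal.span (Set.range f)).IsHomogeneous (homogeneousSubmodule (Fin (n + 1)) k) := by
    refine Ideal.homogeneous_span _ _ ?_
    rintro _ ⟨j, rfl⟩
    exact ⟨e j, hf j⟩
  have hJ0 : (Ideal.span {f0}).IsHomogeneous (homogeneousSubmodule (Fin (n + 1)) k) := by
    refine Ideal.homogeneous_span _ _ ?_
    rintro _ rfl
    exact ⟨e0, hf0⟩
  have hdec : ∀ j, ∃ g : MvPolynomial (Fin (n + 1)) k, g ∈ Ideal.span (Set.range f) ∧
      g.IsHomogeneous (s j) ∧ ∃ u, ℓ j ^ s j = g + u * f0 := by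
    intro j
    have h1 := hs j
    rw [Ideal.span, Submodule.mem_span_range_iff_exists_fun] at h1
    obtain ⟨c, hc⟩ := h1
    rw [Fintype.sum_option] at hc
    have h2 : (∑ l, c (some l) • g' (some l)) ∈ Ideal.span (Set.range f) := by
      refine Ideal.sum_mem _ fun l _ => ?_
      exact Ideal.mul_mem_left _ _ (Ideal.subset_span ⟨l, rfl⟩)
    have h3 : c none • g' none ∈ Ideal.span {f0} :=
      Ideal.mul_mem_left _ _ (Ideal.subset_span rfl)
    have h4 := homogeneousComponent_mem_of_mem hJ h2 (s j)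
    have h5 := homogeneousComponent_mem_of_mem hJ0 h3 (s j)
    obtain ⟨u, hu⟩ := Ideal.mem_span_singleton'.1 h5
    refine ⟨_, h4, homogeneousComponent_isHomogeneous _ _, u, ?_⟩
    rw [hu, ← map_add, add_comm (∑ l, c (some l) • g' (some l)), hc]
    have h6 : (ℓ j ^ s j).IsHomogeneous (s j) := by
      have := (hℓ j).pow (s j)
      rwa [one_mul] at this
    rw [homogeneousComponent_of_mem (m := s j) h6, if_pos rfl]
  choose g hgJ hgh u hu using hdec
  have hreg := regular_of_trivial (n + 1) (Fin.snoc (α := fun _ => MvPolynomial (Fin (n + 1)) k) g f0)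
    (Fin.snoc (α := fun _ => ℕ) s e0)
    (by
      intro j
      refine Fin.lastCases ?_ (fun j => ?_) j
      · rw [Fin.snoc_last]; exact he0
      · rw [Fin.snoc_castSucc]; exact hs0 j)
    (by
      intro j
      refine Fin.lastCases ?_ (fun j => ?_) j
      · rw [Fin.snoc_last, Fin.snoc_last]; exact hf0
      · rw [Fin.snoc_castSucc, Fin.snoc_castSucc]; exact hgh j)
    (by
      intro v hv
      have h1 : eval v f0 = 0 := by
        have := hv (Fin.last n)
        rwa [Fin.snoc_last] at this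
      have h2 : ∀ j, eval v (ℓ j) = 0 := by
        intro j
        have h3 := hv j.castSucc
        rw [Fin.snoc_castSucc] at h3
        have h4 := congrArg (eval v) (hu j)
        rw [map_add, map_mul, h3, h1, mul_zero, add_zero, map_pow] at h4
        exact pow_eq_zero_iff (hs0 j).ne' |>.1 h4
      have h5 : v = fun i => (v t / v0 t) * v0 i := by
        funext i
        rcases Fin.eq_self_or_eq_succAbove t i with rfl | ⟨j, rfl⟩
        · field_simp
        · have h6 := h2 j
          simp only [ℓ, map_sub, map_mul, eval_X, eval_C, sub_eq_zero] at h6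
          rw [h6]
          field_simp
      have h7 : (v t / v0 t) ^ e0 * eval v0 f0 = 0 := by
        rw [← eval_smul_form hf0, ← h5]
        exact h1
      have h8 : v t / v0 t = 0 := by
        rcases mul_eq_zero.1 h7 with h | h
        · exact pow_eq_zero_iff he0.ne' |>.1 h
        · exact absurd h hv0
      rw [h5]
      funext i
      rw [h8, zero_mul]
      rfl)
  refine ⟨List.ofFn g, List.length_ofFn, ?_, ?_⟩
  · intro x hx
    rw [List.mem_ofFn] at hx
    obtain ⟨j, rfl⟩ := hx
    exact hgJ j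
  · have h1 : List.ofFn (Fin.snoc (α := fun _ => MvPolynomial (Fin (n + 1)) k) g f0) =
        List.ofFn g ++ [f0] := by
      rw [List.ofFn_succ', List.concat_eq_append, Fin.snoc_last]
      congr 2
      funext j
      rw [Fin.snoc_castSucc]
    rw [h1, isWeaklyRegular_append_iff] at hreg
    exact hreg.1

end Pool.Agent.MP_8cdb7a_ag
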