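import Pool.Agent.Lib.MP_8cdb7a_ag.Vf1

/-!
# Two lemmas on syzygies
-/

set_option autoImplicit false

open MvPolynomial RingTheory.Sequence

namespace Pool.Agent.MP_8cdb7a_ag

universe u

/-- The expansion of an alternating map in the first variable. -/
theorem con_apply {R : Type u} [CommRing R] {n i : ℕ} (f : Fin n → R)
    (η : (Fin n → R) [⋀^Fin (i + 1)]→ₗ[R] R) (u : Fin i → Fin n → R) :
    con f η u = ∑ l, f l * η (Matrix.vecCons (Pi.single l 1) u) := by
  have h1 : f = ∑ l, f l • (Pi.single l (1 : R) : Fin n → R) := by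
    funext j
    rw [Finset.sum_apply]
    simp [Pi.single_apply]
  let L : (Fin n → R) →ₗ[R] R :=
    { toFun := fun v => η.curryLeft v u
      map_add' := fun v w => by rw [map_add]; rfl
      map_smul' := fun c v => by rw [map_smul]; rfl }
  have h2 : L f = ∑ l, f l • L (Pi.single l 1) := by
    conv_lhs => rw [h1]
    simp only [map_sum, map_smul]
  exact h2

/-- The linear form with coefficients `D`. -/
def lin {R : Type u} [CommRing R] {n : ℕ} (D : Fin n → R) : (Fin n → R) →ₗ[R] R :=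
  ∑ j, D j • LinearMap.proj j

theorem lin_apply {R : Type u} [CommRing R] {n : ℕ} (D v : Fin n → R) :
    lin D v = ∑ j, D j * v j := by
  simp [lin]

theorem lin_single {R : Type u} [CommRing R] {n : ℕ} (D : Fin n → R) (j : Fin n) :
    lin D (Pi.single j 1) = D j := by
  rw [lin_apply]
  simp [Pi.single_apply]

/-- The linear form as an alternating map. -/
def alt1 {R : Type u} [CommRing R] {n : ℕ} (D : Fin n → R) : (Fin n → R) [⋀^Fin 1]→ₗ[R] R :=
  AlternatingMap.ofSubsingleton R (Fin n → R) R 0 (lin D)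

theorem alt1_apply {R : Type u} [CommRing R] {n : ℕ} (D : Fin n → R) (u : Fin 1 → Fin n → R) :
    alt1 D u = lin D (u 0) := rfl

theorem con_alt1 {R : Type u} [CommRing R] {n : ℕ} (D f : Fin n → R)
    (h : ∑ j, D j * f j = 0) : con f (alt1 D) = 0 := by
  ext u
  show alt1 D (Matrix.vecCons f u) = 0
  rw [alt1_apply, Matrix.cons_val_zero, lin_apply, h]

section

variable {k : Type u} [Field k] [IsAlgClosed k]

theorem syz_one {n : ℕ} (f : Fin n → MvPolynomial (Fin n) k) (e : Fin n → ℕ)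
    (he : ∀ j, 0 < e j) (hf : ∀ j, (f j).IsHomogeneous (e j))
    (h0 : ∀ v : Fin n → k, (∀ j, eval v (f j) = 0) → v = 0)
    (D : Fin n → MvPolynomial (Fin n) k) (a : Fin n → ℕ) (hD : ∀ j, (D j).IsHomogeneous (a j))
    (hsum : ∑ j, D j * f j = 0) (hlt : ∀ j l, l ≠ j → a j < e l) (j : Fin n) : D j = 0 := by
  have hreg := regular_of_trivial n f e he hf h0
  obtain ⟨η, hη⟩ := koszul_exact f (List.ofFn f) (MvPolynomial (Fin n) k) 0 (alt1 D)
    (by
      intro g hg
      rw [List.mem_ofFn] at hg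
      obtain ⟨j, rfl⟩ := hg
      exact Ideal.subset_span ⟨j, rfl⟩) hreg (con_alt1 D f hsum)
    (by rw [List.length_ofFn]; omega)
  refine deg_zero (hD j) (fun l => η (Matrix.vecCons (Pi.single l 1) ![Pi.single j 1])) f e hf ?_ ?_
  · rw [← con_apply, hη, alt1_apply, Matrix.cons_val_zero, lin_single]
  · intro l
    by_cases h : l = j
    · left
      rw [h]
      exact η.map_eq_zero_of_eq _ (i := 0) (j := 1) rfl (by decide)
    · right
      exact hlt j l h

theorem syz_two {n : ℕ} (f0 : MvPolynomial (Fin (n + 1)) k) (e0 : ℕ) (he0 : 0 < e0)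
    (hf0 : f0.IsHomogeneous e0) (hne : f0 ≠ 0)
    (f : Fin (n + 1) → MvPolynomial (Fin (n + 1)) k) (e : Fin (n + 1) → ℕ)
    (hf : ∀ j, (f j).IsHomogeneous (e j))
    (h0 : ∀ v : Fin (n + 1) → k, eval v f0 = 0 → (∀ j, eval v (f j) = 0) → v = 0)
    (D E : Fin (n + 1) → MvPolynomial (Fin (n + 1)) k) (a : Fin (n + 1) → ℕ)
    (hD : ∀ j, (D j).IsHomogeneous (a j)) (hE : ∀ j, (E j).IsHomogeneous (a j))
    (hDs : ∑ j, D j * f j = 0) (hEs : ∑ j, E j * f j = 0)
    (hlt : ∀ i j l, i ≠ j → l ≠ i → l ≠ j → a i + a j < e l) (i j : Fin (n + 1)) :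
    D i * E j = D j * E i := by
  by_cases hij : i = j
  · rw [hij]
  obtain ⟨gs, hlen, hgs, hreg⟩ := exists_regular f0 e0 he0 hf0 hne f e hf h0
  have hcon : con f (wed (lin D) (alt1 E)) = 0 := by
    rw [con_wed, con_alt1 E f hEs, wed_zero, lin_apply, hDs, zero_smul, sub_zero]
  obtain ⟨η, hη⟩ := koszul_exact f gs (MvPolynomial (Fin (n + 1)) k) 1 (wed (lin D) (alt1 E))
    hgs hreg hcon (by rw [hlen]; omega)
  rw [← sub_eq_zero]
  refine deg_zero (((hD i).mul (hE j)).sub ?_)
    (fun l => η (Matrix.vecCons (Pi.single l 1) ![Pi.single i 1, Pi.single j 1])) f e hf ?_ ?_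
  · have := (hD j).mul (hE i)
    rwa [add_comm (a j) (a i)] at this
  · rw [← con_apply, hη]
    simp only [wed, AlternatingMap.alternatizeUncurryFin_apply]
    simp [Fin.removeNth_apply, alt1_apply, lin_single, sub_eq_add_neg]
  · intro l
    by_cases h1 : l = i
    · left
      rw [h1]
      exact η.map_eq_zero_of_eq _ (i := 0) (j := 1) rfl (by decide)
    · by_cases h2 : l = j
      · left
        rw [h2]
        exact η.map_eq_zero_of_eq _ (i := 0) (j := 2) rfl (by decide)
      · right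
        exact hlt i j l hij h1 h2

end

end Pool.Agent.MP_8cdb7a_ag
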