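import Pool.Agent.Lib.MP_8cdb7a_ag.Vf2

/-!
# Infinitesimal automorphisms of quasi-smooth weighted hypersurfaces
-/

set_option autoImplicit false

open MvPolynomial RingTheory.Sequence

namespace Pool.Agent.MP_8cdb7a_ag

universe u

attribute [local instance] MvPolynomial.gradedAlgebra

noncomputable section

variable {k : Type u} [Field k]

/-- The substitution `x_j = y_j ^ w_j`. -/
def psi {n : ℕ} (w : Fin n → ℕ) : MvPolynomial (Fin n) k →ₐ[k] MvPolynomial (Fin n) k :=
  aeval (fun j => X j ^ w j)

/-- The exponents after the substitution. -/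
def expo {n : ℕ} (w : Fin n → ℕ) (m : Fin n →₀ ℕ) : Fin n →₀ ℕ :=
  Finsupp.equivFunOnFinite.symm (fun j => w j * m j)

theorem expo_apply {n : ℕ} (w : Fin n → ℕ) (m : Fin n →₀ ℕ) (j : Fin n) :
    expo w m j = w j * m j := rfl

theorem psi_monomial {n : ℕ} (w : Fin n → ℕ) (m : Fin n →₀ ℕ) (c : k) :
    psi w (monomial m c) = monomial (expo w m) c := by
  rw [psi, aeval_monomial, monomial_eq, algebraMap_eq]
  congr 1
  rw [Finsupp.prod_fintype _ _ (fun _ => pow_zero _), Finsupp.prod_fintype _ _ (fun _ => pow_zero _)]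
  refine Finset.prod_congr rfl fun j _ => ?_
  rw [← pow_mul, expo_apply]

theorem expo_injective {n : ℕ} {w : Fin n → ℕ} (hw : ∀ j, 0 < w j) :
    Function.Injective (expo w) := by
  intro m m' h
  ext j
  have h1 : w j * m j = w j * m' j := DFunLike.congr_fun h j
  exact Nat.eq_of_mul_eq_mul_left (hw j) h1

theorem coeff_psi {n : ℕ} {w : Fin n → ℕ} (hw : ∀ j, 0 < w j) (P : MvPolynomial (Fin n) k)
    (m : Fin n →₀ ℕ) : coeff (expo w m) (psi w P) = coeff m P := by
  classical
  induction P using MvPolynomial.induction_on' with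
  | monomial u a =>
    rw [psi_monomial, coeff_monomial, coeff_monomial]
    by_cases h : u = m
    · rw [if_pos h, if_pos (by rw [h])]
    · rw [if_neg h, if_neg (fun h1 => h (expo_injective hw h1))]
  | add p q hp hq => rw [map_add, coeff_add, coeff_add, hp, hq]

theorem psi_injective {n : ℕ} {w : Fin n → ℕ} (hw : ∀ j, 0 < w j) :
    Function.Injective (psi (k := k) w) := by
  intro P Q h
  ext m
  rw [← coeff_psi hw P, ← coeff_psi hw Q, h]

theorem weight_sum {n : ℕ} (w : Fin n → ℕ) (m : Fin n →₀ ℕ) :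
    Finsupp.weight w m = ∑ j, m j * w j := by
  rw [Finsupp.weight_apply, Finsupp.sum_fintype]
  · rfl
  · intro i
    exact zero_smul _ _

theorem psi_homog {n : ℕ} {w : Fin n → ℕ} {P : MvPolynomial (Fin n) k} {d : ℕ}
    (hP : IsWeightedHomogeneous w P d) : (psi w P).IsHomogeneous d := by
  rw [P.as_sum, map_sum]
  refine IsHomogeneous.sum _ _ _ fun m hm => ?_
  rw [psi_monomial]
  refine isHomogeneous_monomial _ ?_
  have h1 := hP (mem_support_iff.1 hm)
  rw [weight_sum] at h1
  rw [← h1, Finsupp.degree_eq_sum]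
  refine Finset.sum_congr rfl fun j _ => ?_
  rw [expo_apply, mul_comm]

theorem eval_psi {n : ℕ} (w : Fin n → ℕ) (P : MvPolynomial (Fin n) k) (v : Fin n → k) :
    eval v (psi w P) = eval (fun j => v j ^ w j) P := by
  have h : (eval v).comp (psi (k := k) w).toRingHom = eval (fun j => v j ^ w j) := by
    apply MvPolynomial.ringHom_ext
    · intro c
      simp [psi]
    · intro j
      simp [psi]
  exact RingHom.congr_fun h P

theorem derivation_sum {n : ℕ}
    (D : Derivation k (MvPolynomial (Fin n) k) (MvPolynomial (Fin n) k))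
    (F : MvPolynomial (Fin n) k) : D F = ∑ j, D (X j) * pderiv j F := by
  classical
  induction F using MvPolynomial.induction_on with
  | C a => simp
  | add p q hp hq => simp only [map_add, mul_add, Finset.sum_add_distrib, hp, hq]
  | mul_X p i hp =>
    rw [Derivation.leibniz, hp]
    have h1 : ∀ j, D (X j) * pderiv j (p * X i) =
        (if j = i then p * D (X j) else 0) + X i * (D (X j) * pderiv j p) := by
      intro j
      rw [Derivation.leibniz, pderiv_X, Pi.single_apply, smul_eq_mul, smul_eq_mul]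
      by_cases h : j = i
      · subst h
        rw [if_pos rfl, if_pos rfl]
        ring
      · rw [if_neg h, if_neg (fun h' => h h'.symm)]
        ring
    rw [Finset.sum_congr rfl fun j _ => h1 j, Finset.sum_add_distrib, Finset.sum_ite_eq',
      if_pos (Finset.mem_univ i), smul_eq_mul, smul_eq_mul, Finset.mul_sum]

/-- Forms of weight one. -/
theorem weight_one {n : ℕ} {w : Fin n → ℕ} (hw : ∀ j, 0 < w j) {m : Fin n →₀ ℕ}
    (h : Finsupp.weight w m = 1) : ∃ i, w i = 1 ∧ m = Finsupp.single i 1 := by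
  classical
  rw [weight_sum] at h
  obtain ⟨i, hi⟩ : ∃ i, m i ≠ 0 := by
    by_contra hcon
    push Not at hcon
    simp [hcon] at h
  rw [← Finset.add_sum_erase _ _ (Finset.mem_univ i)] at h
  have h1 : 0 < m i * w i := Nat.mul_pos (Nat.pos_of_ne_zero hi) (hw i)
  have h2 : m i * w i = 1 := by omega
  have h3 : ∑ j ∈ Finset.univ.erase i, m j * w j = 0 := by omega
  refine ⟨i, Nat.eq_one_of_mul_eq_one_left h2, ?_⟩
  ext j
  by_cases hj : j = i
  · subst hj
    rw [Finsupp.single_eq_same]
    exact Nat.eq_one_of_mul_eq_one_right h2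
  · rw [Finsupp.single_eq_of_ne hj]
    rw [Finset.sum_eq_zero_iff] at h3
    have h4 := h3 j (Finset.mem_erase.2 ⟨hj, Finset.mem_univ j⟩)
    rcases Nat.mul_eq_zero.1 h4 with h5 | h5
    · exact h5
    · exact absurd h5 (hw j).ne'

end

end Pool.Agent.MP_8cdb7a_ag
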