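import Pool.Agent.Lib.MP_8cdb7a_ag.Vf3

/-!
# Infinitesimal automorphisms of quasi-smooth weighted hypersurfaces: the theorem
-/

set_option autoImplicit false

open MvPolynomial RingTheory.Sequence

namespace Pool.Agent.MP_8cdb7a_ag

universe u

attribute [local instance] MvPolynomial.gradedAlgebra

section

variable {k : Type u} [Field k] [IsAlgClosed k]

omit [IsAlgClosed k] in
theorem psi_C_mul_X {n : ℕ} (w : Fin n → ℕ) (c : k) (j : Fin n) :
    psi w (C c * X j) = C c * X j ^ w j := by
  simp [psi]

theorem vector_fields {n : ℕ} (w : Fin (n + 1) → ℕ) (hw : ∀ j, 0 < w j) (hw0 : w 0 = 1) (d : ℕ)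
    (hd1 : ∀ j, w j < d) (hd2 : ∀ i j, i ≠ j → w i + w j < d)
    (hd3 : ∀ i j l, i ≠ j → l ≠ i → l ≠ j → w i + w j + w l < d)
    (F : MvPolynomial (Fin (n + 1)) k) (hF : IsWeightedHomogeneous w F d)
    (hqs : ∀ v : Fin (n + 1) → k, eval v F = 0 → (∀ j, eval v (pderiv j F) = 0) → v = 0)
    (D : Derivation k (MvPolynomial (Fin (n + 1)) k) (MvPolynomial (Fin (n + 1)) k))
    (hD : ∀ j, IsWeightedHomogeneous w (D (X j)) (w j)) (hDF : D F ∈ Ideal.span {F}) :
    ∃ c : k, ∀ j, D (X j) = C (c * w j) * X j := by
  classical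
  set f0 := psi w F with hf0
  set f : Fin (n + 1) → MvPolynomial (Fin (n + 1)) k := fun j => psi w (pderiv j F) with hf
  set e : Fin (n + 1) → ℕ := fun j => d - w j with he
  have hf0h : f0.IsHomogeneous d := psi_homog hF
  have hfh : ∀ j, (f j).IsHomogeneous (e j) := fun j =>
    psi_homog (hF.pderiv (i := j) (Nat.sub_add_cancel (hd1 j).le))
  have he0 : ∀ j, 0 < e j := fun j => Nat.sub_pos_of_lt (hd1 j)
  have hd0 : 0 < d := lt_of_le_of_lt (Nat.zero_le _) (hd1 0)
  have hne : f0 ≠ 0 := by
    intro h
    have h1 : F = 0 := psi_injective hw (by rw [← hf0, h, map_zero])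
    have h2 := hqs (fun _ => 1) (by rw [h1, map_zero]) (fun j => by rw [h1, map_zero, map_zero])
    exact one_ne_zero (congrFun h2 0)
  have h0 : ∀ v : Fin (n + 1) → k, eval v f0 = 0 → (∀ j, eval v (f j) = 0) → v = 0 := by
    intro v h1 h2
    have h3 := hqs (fun j => v j ^ w j) (by rw [← eval_psi]; exact h1)
      (fun j => by rw [← eval_psi]; exact h2 j)
    funext j
    exact pow_eq_zero_iff (hw j).ne' |>.1 (congrFun h3 j)
  set D' : Fin (n + 1) → MvPolynomial (Fin (n + 1)) k := fun j => psi w (D (X j)) with hD'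
  set E' : Fin (n + 1) → MvPolynomial (Fin (n + 1)) k := fun j => C (w j : k) * X j ^ w j with hE'
  have hD'h : ∀ j, (D' j).IsHomogeneous (w j) := fun j => psi_homog (hD j)
  have hE'h : ∀ j, (E' j).IsHomogeneous (w j) := by
    intro j
    have := (isHomogeneous_C (Fin (n + 1)) (w j : k)).mul ((isHomogeneous_X k j).pow (w j))
    rwa [zero_add, one_mul] at this
  -- the two relations
  have hEs : ∑ j, E' j * f j = C (d : k) * f0 := by
    have h1 := hF.sum_weight_X_mul_pderiv
    have h2 := congrArg (psi w) h1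
    rw [map_sum, map_nsmul, nsmul_eq_mul] at h2
    rw [map_natCast, hf0, ← h2]
    refine Finset.sum_congr rfl fun j _ => ?_
    rw [map_nsmul, map_mul, nsmul_eq_mul, hE', hf]
    simp only [map_natCast]
    rw [mul_assoc]
    congr 2
    simp [psi]
  obtain ⟨c, hDs⟩ : ∃ c : k, ∑ j, D' j * f j = C c * f0 := by
    obtain ⟨a, ha⟩ := Ideal.mem_span_singleton'.1 hDF
    have h1 : ∑ j, D' j * f j = psi w a * f0 := by
      rw [hf0, ← map_mul, ha, derivation_sum, map_sum]
      refine Finset.sum_congr rfl fun j _ => ?_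
      rw [map_mul]
    have h2 : (∑ j, D' j * f j).IsHomogeneous d := by
      refine IsHomogeneous.sum _ _ _ fun j _ => ?_
      have := (hD'h j).mul (hfh j)
      rwa [he, Nat.add_sub_cancel' (hd1 j).le] at this
    have h3 : homogeneousComponent d (∑ j, D' j * f j) = ∑ j, D' j * f j := by
      rw [homogeneousComponent_of_mem (m := d) h2, if_pos rfl]
    refine ⟨coeff 0 (psi w a), ?_⟩
    rw [← h3, h1, comp_mul_right hf0h le_rfl, Nat.sub_self, homogeneousComponent_zero]
  by_cases hd : (d : k) = 0
  · -- the characteristic divides the degree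
    have hEs0 : ∑ j, E' j * f j = 0 := by rw [hEs, hd, C_0, zero_mul]
    have hc : c = 0 := by
      by_contra hc
      have h0' : ∀ v : Fin (n + 1) → k, (∀ j, eval v (f j) = 0) → v = 0 := by
        intro v hv
        refine h0 v ?_ hv
        have h1 := congrArg (eval v) hDs
        rw [map_sum, map_mul, eval_C] at h1
        rw [Finset.sum_eq_zero (fun j _ => by rw [map_mul, hv j, mul_zero])] at h1
        rcases mul_eq_zero.1 h1.symm with h2 | h2
        · exact absurd h2 hc
        · exact h2
      have h1 := syz_one f e he0 hfh h0' E' w hE'h hEs0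
        (fun j l hl => by have := hd2 j l hl.symm; simp only [he]; omega) 0
      simp only [hE', hw0, Nat.cast_one, C_1, one_mul, pow_one] at h1
      exact X_ne_zero (R := k) (0 : Fin (n + 1)) h1
    have hDs0 : ∑ j, D' j * f j = 0 := by rw [hDs, hc, C_0, zero_mul]
    have hrel := syz_two f0 d hd0 hf0h hne f e hfh h0 D' E' w hD'h hE'h hDs0 hEs0
      (fun i j l h1 h2 h3 => by have := hd3 i j l h1 h2 h3; simp only [he]; omega)
    have hrel2 : ∀ j, D (X 0) * (C (w j : k) * X j) = D (X j) * X 0 := by
      intro j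
      apply psi_injective hw
      have h1 := hrel 0 j
      rw [map_mul, psi_C_mul_X, map_mul]
      simp only [hE', hD', hw0, Nat.cast_one, C_1, one_mul, pow_one] at h1
      rw [h1]
      congr 1
      simp [psi, hw0]
    -- the first coefficient
    set c0 := coeff (Finsupp.single 0 1) (D (X 0)) with hc0
    have hX0 : D (X 0) = C c0 * X 0 := by
      ext m
      by_cases hm : coeff m (D (X 0)) = 0
      · rw [hm, coeff_C_mul, coeff_X]
        split_ifs with h
        · rw [hc0, h, hm, zero_mul]
        · rw [mul_zero]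
      · have h1 := hD 0 hm
        rw [hw0] at h1
        obtain ⟨i, hi, rfl⟩ := weight_one hw h1
        by_cases hi0 : i = 0
        · subst hi0
          rw [coeff_C_mul, coeff_X, if_pos rfl, mul_one]
        · exfalso
          apply hm
          have h2 := congrArg (coeff (Finsupp.single i 1 + Finsupp.single i 1)) (hrel2 i)
          rw [hi, Nat.cast_one, C_1, one_mul, coeff_mul_X, coeff_mul_X', if_neg] at h2
          · exact h2
          · rw [Finsupp.mem_support_iff, not_not, Finsupp.add_apply,
              Finsupp.single_eq_of_ne (fun h => hi0 h.symm), add_zero]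
    refine ⟨c0, fun j => ?_⟩
    have h1 := hrel2 j
    rw [hX0] at h1
    have h2 : (D (X j) - C (c0 * w j) * X j) * X 0 = 0 := by
      rw [sub_mul, ← h1, C_mul]
      ring
    rcases mul_eq_zero.1 h2 with h3 | h3
    · exact sub_eq_zero.1 h3
    · exact absurd h3 (X_ne_zero _)
  · -- the other case
    have h0' : ∀ v : Fin (n + 1) → k, (∀ j, eval v (f j) = 0) → v = 0 := by
      intro v hv
      refine h0 v ?_ hv
      have h1 := congrArg (eval v) hEs
      rw [map_sum, map_mul, eval_C] at h1
      rw [Finset.sum_eq_zero (fun j _ => by rw [map_mul, hv j, mul_zero])] at h1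
      rcases mul_eq_zero.1 h1.symm with h2 | h2
      · exact absurd h2 hd
      · exact h2
    refine ⟨c / d, fun j => ?_⟩
    have h1 := syz_one f e he0 hfh h0' (fun j => D' j - C (c / d) * E' j) w
      (fun j => (hD'h j).sub (by
        have := (isHomogeneous_C (Fin (n + 1)) (c / (d : k))).mul (hE'h j)
        rwa [zero_add] at this))
      (by
        have h2 : ∀ j, (D' j - C (c / d) * E' j) * f j = D' j * f j - C (c / d) * (E' j * f j) :=
          fun j => by ring
        rw [Finset.sum_congr rfl fun j _ => h2 j, Finset.sum_sub_distrib, ← Finset.mul_sum, hDs,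
          hEs, ← mul_assoc, ← C_mul, div_mul_cancel₀ _ hd, sub_self])
      (fun j l hl => by have := hd2 j l hl.symm; simp only [he]; omega) j
    apply psi_injective hw
    rw [psi_C_mul_X, ← sub_eq_zero, ← h1]
    simp only [hD', hE', C_mul]
    ring

end

end Pool.Agent.MP_8cdb7a_ag
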