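import Pool.Agent.Lib.MP_8cdb7a_ag.Vf4

/-!
# Separability in each variable
-/

set_option autoImplicit false

open MvPolynomial RingTheory.Sequence

namespace Pool.Agent.MP_8cdb7a_ag

universe u

attribute [local instance] MvPolynomial.gradedAlgebra

variable {k : Type u} [Field k] [IsAlgClosed k]

theorem pderiv_ne_zero {n : ℕ} (w : Fin (n + 1) → ℕ) (hw : ∀ j, 0 < w j) (hw0 : w 0 = 1) (d : ℕ)
    (hd1 : ∀ j, w j < d) (hd2 : ∀ i j, i ≠ j → w i + w j < d)
    (hd3 : ∀ i j l, i ≠ j → l ≠ i → l ≠ j → w i + w j + w l < d)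
    (F : MvPolynomial (Fin (n + 1)) k) (hF : IsWeightedHomogeneous w F d)
    (hqs : ∀ v : Fin (n + 1) → k, eval v F = 0 → (∀ j, eval v (pderiv j F) = 0) → v = 0)
    (i : Fin (n + 1)) (hi : ∃ l, l ≠ i ∧ (w l : k) ≠ 0) : pderiv i F ≠ 0 := by
  classical
  intro h0
  obtain ⟨c, hc⟩ := vector_fields w hw hw0 d hd1 hd2 hd3 F hF hqs
    ((X i : MvPolynomial (Fin (n + 1)) k) • pderiv i)
    (by
      intro j
      rw [Derivation.smul_apply, pderiv_X, Pi.single_apply, smul_eq_mul]
      by_cases h : i = j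
      · subst h
        rw [if_pos rfl, mul_one]
        exact isWeightedHomogeneous_X k w i
      · rw [if_neg (fun h' => h h'.symm), mul_zero]
        exact isWeightedHomogeneous_zero k w (w j))
    (by rw [Derivation.smul_apply, h0, smul_zero]; exact Ideal.zero_mem _)
  obtain ⟨l, hl, hl0⟩ := hi
  have h1 := hc l
  rw [Derivation.smul_apply, pderiv_X, Pi.single_apply, if_neg hl, smul_zero] at h1
  have h2 : c * (w l : k) = 0 := by
    rcases mul_eq_zero.1 h1.symm with h | h
    · exact C_eq_zero.1 h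
    · exact absurd h (X_ne_zero l)
  have h3 : c = 0 := by
    rcases mul_eq_zero.1 h2 with h | h
    · exact h
    · exact absurd h hl0
  have h4 := hc i
  rw [Derivation.smul_apply, pderiv_X, Pi.single_apply, if_pos rfl, smul_eq_mul, mul_one, h3,
    zero_mul, C_0, zero_mul] at h4
  exact X_ne_zero i h4

omit [IsAlgClosed k] in
theorem pderiv_mem {n : ℕ} (w : Fin (n + 1) → ℕ) (hw : ∀ j, 0 < w j) (d : ℕ)
    (hd1 : ∀ j, w j < d) (F : MvPolynomial (Fin (n + 1)) k) (hF : IsWeightedHomogeneous w F d)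
    (i : Fin (n + 1)) (h : pderiv i F ∈ Ideal.span {F}) : pderiv i F = 0 := by
  obtain ⟨a, ha⟩ := Ideal.mem_span_singleton'.1 h
  have h1 : (psi w (pderiv i F)).IsHomogeneous (d - w i) :=
    psi_homog (hF.pderiv (i := i) (Nat.sub_add_cancel (hd1 i).le))
  have h2 : homogeneousComponent (d - w i) (psi w (pderiv i F)) = psi w (pderiv i F) := by
    rw [homogeneousComponent_of_mem (m := d - w i) h1, if_pos rfl]
  apply psi_injective hw
  rw [map_zero, ← h2, ← ha, mul_comm, map_mul]
  exact comp_mul_small (psi_homog hF) (Nat.sub_lt (lt_of_le_of_lt (Nat.zero_le _) (hd1 i)) (hw i))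

end Pool.Agent.MP_8cdb7a_ag
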